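import Mathlib
import Pool.Agent.MisPer.Red

set_option autoImplicit false

/-!
# Every period occurs in a misère quotient

Finite impartial games under misère play.  For every `p ≥ 1` there is a set of games, closed under
sums and under taking options, whose misère quotient contains an element of period `p`.
-/

namespace Pool.Agent.Results.MP_bc0e65_co.EveryPeriod

/-- A finite (short) impartial game: finitely many options, each of which is such a game. -/
inductive Game : Type
  | mk (n : ℕ) (opt : Fin n → Game) : Game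

namespace Game

/-- The set of options of a game. -/
def opts : Game → Set Game
  | mk _ f => Set.range f

/-- The empty game: it has no options. -/
def zero : Game := mk 0 Fin.elim0

/-- Auxiliary definition for the sum `mk n f + H`, where `ih i` is the function `K ↦ f i + K`. -/
def addAux (n : ℕ) (ih : Fin n → Game → Game) : Game → Game
  | mk m g => mk (n + m) (Fin.append (fun i => ih i (mk m g)) (fun j => addAux n ih (g j)))

/-- The disjunctive sum of two games: the options of `G + H` are the games `G' + H` and `G + H'`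
with `G'` an option of `G` and `H'` an option of `H` (see `opts_add`). -/
def add : Game → Game → Game
  | mk n f => addAux n (fun i => add (f i))

/-- The misère outcome: `NextWins G` means that the player to move wins the misère play of `G`, in
which the player who makes the last move loses.  So it holds if `G` has no option, or if some
option is not won by the player to move there. -/
def NextWins : Game → Prop
  | mk n f => n = 0 ∨ ∃ i, ¬ NextWins (f i)

end Game

open Game

/-- The set `A` of games is closed under taking options and under sums and contains the empty game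
(which belongs to every nonempty set closed under taking options). -/
structure IsClosedSet (A : Set Game) : Prop where
  zero_mem : zero ∈ A
  opts_mem : ∀ G ∈ A, ∀ G' ∈ opts G, G' ∈ A
  add_mem : ∀ G ∈ A, ∀ H ∈ A, add G H ∈ A

/-- `H ≡ K` modulo `A`: `H + X` and `K + X` have the same misère outcome for every `X ∈ A`. -/
def Indist (A : Set Game) (H K : Game) : Prop :=
  ∀ X ∈ A, (NextWins (add H X) ↔ NextWins (add K X))

/-- Indistinguishability is an equivalence relation on `A`. -/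
def indistSetoid (A : Set Game) : Setoid A where
  r H K := Indist A H K
  iseqv :=
    ⟨fun _ _ _ => Iff.rfl, fun h X hX => (h X hX).symm, fun h k X hX => (h X hX).trans (k X hX)⟩

/-! ### Options of sums, bisimulations -/

theorem opts_addAux (n : ℕ) (ih : Fin n → Game → Game) (H : Game) :
    opts (addAux n ih H) = Set.range (fun i => ih i H) ∪ (fun H' => addAux n ih H') '' opts H := by
  obtain ⟨m, g⟩ := H
  rw [addAux, opts, opts]
  ext K
  simp only [Set.mem_range, Set.mem_union, Set.mem_image, exists_exists_eq_and]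
  constructor
  · rintro ⟨i, rfl⟩
    refine Fin.addCases (fun i => ?_) (fun j => ?_) i
    · left; exact ⟨i, by rw [Fin.append_left]⟩
    · right; exact ⟨j, by rw [Fin.append_right]⟩
  · rintro (⟨i, rfl⟩ | ⟨j, rfl⟩)
    · exact ⟨Fin.castAdd m i, by rw [Fin.append_left]⟩
    · exact ⟨Fin.natAdd n j, by rw [Fin.append_right]⟩

theorem opts_add (G H : Game) :
    opts (add G H) = (fun G' => add G' H) '' opts G ∪ (fun H' => add G H') '' opts H := by
  obtain ⟨n, f⟩ := G
  rw [add, opts_addAux, opts]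
  congr 1
  rw [← Set.range_comp]
  rfl

theorem mem_opts_add {G H K : Game} :
    K ∈ opts (add G H) ↔ (∃ G' ∈ opts G, K = add G' H) ∨ ∃ H' ∈ opts H, K = add G H' := by
  rw [opts_add]
  simp only [Set.mem_union, Set.mem_image]
  constructor
  · rintro (⟨a, h, rfl⟩ | ⟨a, h, rfl⟩)
    · exact Or.inl ⟨a, h, rfl⟩
    · exact Or.inr ⟨a, h, rfl⟩
  · rintro (⟨a, h, rfl⟩ | ⟨a, h, rfl⟩)
    · exact Or.inl ⟨a, h, rfl⟩
    · exact Or.inr ⟨a, h, rfl⟩

theorem opts_zero : opts zero = ∅ := by
  simp [opts, zero]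

theorem nextWins_iff (G : Game) : NextWins G ↔ (opts G = ∅ ∨ ∃ K ∈ opts G, ¬ NextWins K) := by
  obtain ⟨n, f⟩ := G
  rw [NextWins, opts]
  constructor
  · rintro (h | ⟨i, hi⟩)
    · subst h
      left
      exact Set.range_eq_empty f
    · exact Or.inr ⟨f i, ⟨i, rfl⟩, hi⟩
  · rintro (h | ⟨_, ⟨i, rfl⟩, hi⟩)
    · left
      rw [Set.range_eq_empty_iff] at h
      by_contra hn
      exact h.elim ⟨0, Nat.pos_of_ne_zero hn⟩
    · exact Or.inr ⟨i, hi⟩

/-- induction on games via options -/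
theorem game_induction {C : Game → Prop} (h : ∀ G, (∀ G' ∈ opts G, C G') → C G) (G : Game) :
    C G := by
  induction G with
  | mk n f ih =>
    apply h
    rintro _ ⟨i, rfl⟩
    exact ih i

/-- A bisimulation. -/
def Bisim (R : Game → Game → Prop) : Prop :=
  ∀ G H, R G H → (∀ G' ∈ opts G, ∃ H' ∈ opts H, R G' H') ∧ (∀ H' ∈ opts H, ∃ G' ∈ opts G, R G' H')

theorem Bisim.nextWins {R : Game → Game → Prop} (hR : Bisim R) :
    ∀ G H, R G H → (NextWins G ↔ NextWins H) := by
  intro G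
  induction G using game_induction with
  | h G ih =>
    intro H hGH
    obtain ⟨h1, h2⟩ := hR G H hGH
    rw [nextWins_iff G, nextWins_iff H]
    have he : opts G = ∅ ↔ opts H = ∅ := by
      rw [Set.eq_empty_iff_forall_notMem, Set.eq_empty_iff_forall_notMem]
      constructor
      · intro h K hK
        obtain ⟨G', hG', -⟩ := h2 K hK
        exact h G' hG'
      · intro h K hK
        obtain ⟨H', hH', -⟩ := h1 K hK
        exact h H' hH'
    rw [he]
    apply or_congr Iff.rfl
    constructor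
    · rintro ⟨K, hK, hn⟩
      obtain ⟨H', hH', hr⟩ := h1 K hK
      exact ⟨H', hH', fun h => hn ((ih K hK H' hr).2 h)⟩
    · rintro ⟨K, hK, hn⟩
      obtain ⟨G', hG', hr⟩ := h2 K hK
      exact ⟨G', hG', fun h => hn ((ih G' hG' K hr).1 h)⟩

/-- A bisimulation may be put in a context. -/
theorem Bisim.ctx {R : Game → Game → Prop} (hR : Bisim R) :
    Bisim (fun U V => ∃ A B X, R A B ∧ U = add A X ∧ V = add B X) := by
  rintro _ _ ⟨A, B, X, hAB, rfl, rfl⟩
  obtain ⟨h1, h2⟩ := hR A B hAB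
  constructor
  · intro K hK
    rcases mem_opts_add.1 hK with ⟨A', hA', rfl⟩ | ⟨X', hX', rfl⟩
    · obtain ⟨B', hB', hr⟩ := h1 A' hA'
      exact ⟨_, mem_opts_add.2 (Or.inl ⟨B', hB', rfl⟩), A', B', X, hr, rfl, rfl⟩
    · exact ⟨_, mem_opts_add.2 (Or.inr ⟨X', hX', rfl⟩), A, B, X', hAB, rfl, rfl⟩
  · intro K hK
    rcases mem_opts_add.1 hK with ⟨B', hB', rfl⟩ | ⟨X', hX', rfl⟩
    · obtain ⟨A', hA', hr⟩ := h2 B' hB'
      exact ⟨_, mem_opts_add.2 (Or.inl ⟨A', hA', rfl⟩), A', B', X, hr, rfl, rfl⟩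
    · exact ⟨_, mem_opts_add.2 (Or.inr ⟨X', hX', rfl⟩), A, B, X', hAB, rfl, rfl⟩

theorem bisim_comm : Bisim (fun U V => ∃ A B, U = add A B ∧ V = add B A) := by
  rintro _ _ ⟨A, B, rfl, rfl⟩
  constructor
  · intro K hK
    rcases mem_opts_add.1 hK with ⟨A', hA', rfl⟩ | ⟨X', hX', rfl⟩
    · exact ⟨_, mem_opts_add.2 (Or.inr ⟨A', hA', rfl⟩), _, _, rfl, rfl⟩
    · exact ⟨_, mem_opts_add.2 (Or.inl ⟨X', hX', rfl⟩), _, _, rfl, rfl⟩
  · intro K hK
    rcases mem_opts_add.1 hK with ⟨A', hA', rfl⟩ | ⟨X', hX', rfl⟩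
    · exact ⟨_, mem_opts_add.2 (Or.inr ⟨A', hA', rfl⟩), _, _, rfl, rfl⟩
    · exact ⟨_, mem_opts_add.2 (Or.inl ⟨X', hX', rfl⟩), _, _, rfl, rfl⟩

theorem bisim_assoc :
    Bisim (fun U V => ∃ A B C, U = add (add A B) C ∧ V = add A (add B C)) := by
  rintro _ _ ⟨A, B, C, rfl, rfl⟩
  constructor
  · intro K hK
    rcases mem_opts_add.1 hK with ⟨K', hK', rfl⟩ | ⟨C', hC', rfl⟩
    · rcases mem_opts_add.1 hK' with ⟨A', hA', rfl⟩ | ⟨B', hB', rfl⟩
      · exact ⟨_, mem_opts_add.2 (Or.inl ⟨A', hA', rfl⟩), _, _, _, rfl, rfl⟩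
      · exact ⟨_, mem_opts_add.2 (Or.inr ⟨_, mem_opts_add.2 (Or.inl ⟨B', hB', rfl⟩), rfl⟩),
          _, _, _, rfl, rfl⟩
    · exact ⟨_, mem_opts_add.2 (Or.inr ⟨_, mem_opts_add.2 (Or.inr ⟨C', hC', rfl⟩), rfl⟩),
        _, _, _, rfl, rfl⟩
  · intro K hK
    rcases mem_opts_add.1 hK with ⟨A', hA', rfl⟩ | ⟨K', hK', rfl⟩
    · exact ⟨_, mem_opts_add.2 (Or.inl ⟨_, mem_opts_add.2 (Or.inl ⟨A', hA', rfl⟩), rfl⟩),
        _, _, _, rfl, rfl⟩
    · rcases mem_opts_add.1 hK' with ⟨B', hB', rfl⟩ | ⟨C', hC', rfl⟩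
      · exact ⟨_, mem_opts_add.2 (Or.inl ⟨_, mem_opts_add.2 (Or.inr ⟨B', hB', rfl⟩), rfl⟩),
          _, _, _, rfl, rfl⟩
      · exact ⟨_, mem_opts_add.2 (Or.inr ⟨C', hC', rfl⟩), _, _, _, rfl, rfl⟩

theorem bisim_zero : Bisim (fun U V => U = add zero V) := by
  rintro _ V rfl
  constructor
  · intro K hK
    rcases mem_opts_add.1 hK with ⟨A', hA', rfl⟩ | ⟨V', hV', rfl⟩
    · rw [opts_zero] at hA'
      exact hA'.elim
    · exact ⟨V', hV', rfl⟩
  · intro V' hV'
    exact ⟨_, mem_opts_add.2 (Or.inr ⟨V', hV', rfl⟩), rfl⟩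

theorem nw_comm (A B X : Game) : NextWins (add (add A B) X) ↔ NextWins (add (add B A) X) :=
  bisim_comm.ctx.nextWins _ _ ⟨_, _, X, ⟨A, B, rfl, rfl⟩, rfl, rfl⟩

theorem nw_assoc0 (A B X : Game) : NextWins (add (add A B) X) ↔ NextWins (add A (add B X)) :=
  bisim_assoc.nextWins _ _ ⟨A, B, X, rfl, rfl⟩

theorem nw_assoc (A B C X : Game) :
    NextWins (add (add (add A B) C) X) ↔ NextWins (add (add A (add B C)) X) :=
  bisim_assoc.ctx.nextWins _ _ ⟨_, _, X, ⟨A, B, C, rfl, rfl⟩, rfl, rfl⟩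

theorem nw_zero (A X : Game) : NextWins (add (add zero A) X) ↔ NextWins (add A X) :=
  bisim_zero.ctx.nextWins _ _ ⟨_, _, X, rfl, rfl, rfl⟩

theorem indist_add {A : Set Game} (hA : IsClosedSet A) {H H' K K' : Game}
    (hK : K ∈ A) (hH' : H' ∈ A) (h1 : Indist A H H') (h2 : Indist A K K') :
    Indist A (add H K) (add H' K') := by
  intro X hX
  rw [nw_assoc0, h1 _ (hA.add_mem _ hK _ hX), ← nw_assoc0, nw_comm, nw_assoc0,
    h2 _ (hA.add_mem _ hH' _ hX), ← nw_assoc0, nw_comm]

/-! ### The misère quotient -/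

/-- The misère quotient `A / ≡` of a closed set `A` of games. -/
def MisereQuotient (A : Set Game) (_hA : IsClosedSet A) : Type := Quotient (indistSetoid A)

/-- The class of a game of `A` in the misère quotient. -/
def cls {A : Set Game} (hA : IsClosedSet A) (G : A) : MisereQuotient A hA :=
  Quotient.mk (indistSetoid A) G

/-- Addition in the misère quotient: `[G] + [H] = [G + H]`. -/
instance {A : Set Game} {hA : IsClosedSet A} : Add (MisereQuotient A hA) where
  add := Quotient.map₂ (fun G H : A => (⟨add G H, hA.add_mem _ G.2 _ H.2⟩ : A))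
    (fun _ b h1 c _ h2 => indist_add hA c.2 b.2 h1 h2)

/-- The identity of the misère quotient is the class of the empty game. -/
instance {A : Set Game} {hA : IsClosedSet A} : Zero (MisereQuotient A hA) where
  zero := cls hA ⟨zero, hA.zero_mem⟩

/-- The misère quotient is a commutative monoid under `[G] + [H] = [G + H]`, with identity the
class of the empty game. -/
instance {A : Set Game} {hA : IsClosedSet A} : AddCommMonoid (MisereQuotient A hA) where
  add_assoc := by
    rintro ⟨a⟩ ⟨b⟩ ⟨c⟩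
    exact Quotient.sound (fun X _ => nw_assoc a b c X)
  zero_add := by
    rintro ⟨a⟩
    exact Quotient.sound (fun X _ => nw_zero a X)
  add_zero := by
    rintro ⟨a⟩
    exact Quotient.sound (fun X _ => (nw_comm a zero X).trans (nw_zero a X))
  add_comm := by
    rintro ⟨a⟩ ⟨b⟩
    exact Quotient.sound (fun X _ => nw_comm a b X)
  nsmul := nsmulRec

/-- The element `x` of a commutative monoid has (finite) period `p`: there are least integers
`m ≥ 1` and `p ≥ 1` with `(m + p) x = m x`. -/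
def HasPeriod {M : Type} [AddCommMonoid M] (x : M) (p : ℕ) : Prop :=
  1 ≤ p ∧ ∃ m : ℕ, 1 ≤ m ∧ (m + p) • x = m • x ∧
    ∀ m' p' : ℕ, 1 ≤ m' → 1 ≤ p' → (m' + p') • x = m' • x → m ≤ m' ∧ p ≤ p'

/-! ### Realisation of the positions of the construction by games -/

open Pool.Agent.MisPer

section real

variable {r : ℕ}

/-- `Rep G g`: the game `G` realises the position `g`. -/
def Rep : Game → Pos r → Prop
  | Game.mk _ f, g => (∀ i, ∃ K, Mv K g ∧ Rep (f i) K) ∧ (∀ K, Mv K g → ∃ i, Rep (f i) K)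

theorem rep_iff (G : Game) (g : Pos r) : Rep G g ↔
    (∀ G' ∈ opts G, ∃ K, Mv K g ∧ Rep G' K) ∧ (∀ K, Mv K g → ∃ G' ∈ opts G, Rep G' K) := by
  obtain ⟨n, f⟩ := G
  rw [Rep, opts]
  constructor
  · rintro ⟨h1, h2⟩
    refine ⟨?_, fun K hK => ?_⟩
    · rintro _ ⟨i, rfl⟩
      exact h1 i
    · obtain ⟨i, hi⟩ := h2 K hK
      exact ⟨f i, ⟨i, rfl⟩, hi⟩
  · rintro ⟨h1, h2⟩
    refine ⟨fun i => h1 _ ⟨i, rfl⟩, fun K hK => ?_⟩
    obtain ⟨_, ⟨i, rfl⟩, hi⟩ := h2 K hK
    exact ⟨i, hi⟩

theorem exists_rep (g : Pos r) : ∃ G, Rep G g := by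
  induction g using (wf (r := r)).induction with
  | h g ih =>
    have hfin : Finite {K | Mv K g} := (Mv_finite g).to_subtype
    obtain ⟨n, ⟨e⟩⟩ := Finite.exists_equiv_fin {K | Mv K g}
    choose f hf using fun K : {K | Mv K g} => ih K.1 K.2
    refine ⟨Game.mk n (fun i => f (e.symm i)), ?_, ?_⟩
    · intro i
      exact ⟨_, (e.symm i).2, hf _⟩
    · intro K hK
      refine ⟨e ⟨K, hK⟩, ?_⟩
      show Rep (f (e.symm (e ⟨K, hK⟩))) K
      rw [Equiv.symm_apply_apply]
      exact hf ⟨K, hK⟩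

theorem rep_add : ∀ (G H : Game) (g h : Pos r), Rep G g → Rep H h → Rep (add G H) (g + h) := by
  intro G
  induction G using game_induction with
  | h G ihG =>
    intro H
    induction H using game_induction with
    | h H ihH =>
      intro g h hg hh
      have hg' := (rep_iff _ _).1 hg
      have hh' := (rep_iff _ _).1 hh
      rw [rep_iff]
      constructor
      · intro K hK
        rcases mem_opts_add.1 hK with ⟨G', hG', rfl⟩ | ⟨H', hH', rfl⟩
        · obtain ⟨g', hm, hr⟩ := hg'.1 G' hG'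
          exact ⟨g' + h, Mv_add_iff.2 (Or.inl ⟨g', hm, rfl⟩), ihG G' hG' H g' h hr hh⟩
        · obtain ⟨h', hm, hr⟩ := hh'.1 H' hH'
          exact ⟨g + h', Mv_add_iff.2 (Or.inr ⟨h', hm, rfl⟩), ihH H' hH' g h' hg hr⟩
      · intro K hK
        rcases Mv_add_iff.1 hK with ⟨g', hm, rfl⟩ | ⟨h', hm, rfl⟩
        · obtain ⟨G', hG', hr⟩ := hg'.2 g' hm
          exact ⟨_, mem_opts_add.2 (Or.inl ⟨G', hG', rfl⟩), ihG G' hG' H g' h hr hh⟩
        · obtain ⟨H', hH', hr⟩ := hh'.2 h' hm
          exact ⟨_, mem_opts_add.2 (Or.inr ⟨H', hH', rfl⟩), ihH H' hH' g h' hg hr⟩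

theorem rep_nextWins : ∀ (G : Game) (g : Pos r), Rep G g → (NextWins G ↔ ¬ PP g) := by
  intro G
  induction G using game_induction with
  | h G ih =>
    intro g hg
    obtain ⟨h1, h2⟩ := (rep_iff _ _).1 hg
    rw [nextWins_iff, PP_rec, not_and_or]
    constructor
    · rintro (h | ⟨K, hK, hn⟩)
      · left
        rintro ⟨K, hK⟩
        obtain ⟨G', hG', -⟩ := h2 K hK
        rw [h] at hG'
        exact hG'
      · right
        intro hall
        obtain ⟨k, hk, hr⟩ := h1 K hK
        exact hn ((ih K hK k hr).2 (hall k hk))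
    · rintro (h | h)
      · left
        rw [Set.eq_empty_iff_forall_notMem]
        intro K hK
        obtain ⟨k, hk, -⟩ := h1 K hK
        exact h ⟨k, hk⟩
      · right
        push Not at h
        obtain ⟨k, hk, hp⟩ := h
        obtain ⟨G', hG', hr⟩ := h2 k hk
        exact ⟨G', hG', fun hN => (ih G' hG' k hr).1 hN hp⟩

theorem rep_zero : Rep zero (0 : Pos r) := by
  rw [rep_iff]
  constructor
  · intro G' hG'
    rw [opts_zero] at hG'
    exact hG'.elim
  · intro K hK
    exact (Mv_zero hK).elim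

/-- The set of all games realising a position. -/
def RepSet (r : ℕ) : Set Game := {G | ∃ g : Pos r, Rep G g}

theorem repSet_closed (r : ℕ) : IsClosedSet (RepSet r) where
  zero_mem := ⟨0, rep_zero⟩
  opts_mem := by
    rintro G ⟨g, hg⟩ G' hG'
    obtain ⟨K, -, hr⟩ := ((rep_iff _ _).1 hg).1 G' hG'
    exact ⟨K, hr⟩
  add_mem := by
    rintro G ⟨g, hg⟩ H ⟨h, hh⟩
    exact ⟨g + h, rep_add G H g h hg hh⟩

theorem indist_iff {G H : Game} {g h : Pos r} (hg : Rep G g) (hh : Rep H h) :
    Indist (RepSet r) G H ↔ ∀ x : Pos r, (PP (g + x) ↔ PP (h + x)) := by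
  constructor
  · intro hI x
    obtain ⟨X, hX⟩ := exists_rep x
    have := hI X ⟨x, hX⟩
    rw [rep_nextWins _ _ (rep_add G X g x hg hX), rep_nextWins _ _ (rep_add H X h x hh hX)] at this
    exact not_iff_not.1 this
  · rintro hall X ⟨x, hX⟩
    rw [rep_nextWins _ _ (rep_add G X g x hg hX), rep_nextWins _ _ (rep_add H X h x hh hX)]
    exact not_congr (hall x)

end real

/-! ### The outcomes -/

section outcomes

variable {r : ℕ}

theorem PP0_par {l l' : ℕ} (h : l % 2 = l' % 2) (Y : Multiset (Atom r)) : PP0 l Y ↔ PP0 l' Y := by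
  unfold PP0 AN AP G
  rw [h]

theorem PPc_shift {n n' : ℕ} (h : n % (4 * r + 8) = n' % (4 * r + 8)) (i l : ℕ)
    (Y : Multiset (Atom r)) : PPc n i l Y ↔ PPc n' i l Y := by
  have h2 : n % 2 = n' % 2 := by
    have h3 : n ≡ n' [MOD (4 * r + 8)] := h
    exact h3.of_dvd ⟨2 * r + 4, by ring⟩
  match i with
  | 0 =>
    show PP0 (l + n) Y ↔ PP0 (l + n') Y
    exact PP0_par (by omega) Y
  | 1 =>
    show (∃ k, Th k Y ∧ chi r (k + (4 * r + 7) * (n + l % 2))) ↔
      (∃ k, Th k Y ∧ chi r (k + (4 * r + 7) * (n' + l % 2)))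
    have h3 : ∀ k, (k + (4 * r + 7) * (n + l % 2)) % (4 * r + 8) =
        (k + (4 * r + 7) * (n' + l % 2)) % (4 * r + 8) := by
      intro k
      have h4 : n ≡ n' [MOD (4 * r + 8)] := h
      exact ((h4.add_right _).mul_left _).add_left _
    constructor
    · rintro ⟨k, hk, hc⟩
      exact ⟨k, hk, (chi_congr (h3 k)).1 hc⟩
    · rintro ⟨k, hk, hc⟩
      exact ⟨k, hk, (chi_congr (h3 k)).2 hc⟩
  | i + 2 =>
    show (i % 2 = 0 ∧ G l Y = n % 2) ↔ (i % 2 = 0 ∧ G l Y = n' % 2)
    rw [h2]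

theorem PP_row1 (n : ℕ) : PP ((n, 1, 0, 0) : Pos r) ↔ chi r ((4 * r + 7) * n) := by
  show (∃ k, Th k 0 ∧ chi r (k + (4 * r + 7) * (n + 0 % 2))) ↔ _
  constructor
  · rintro ⟨k, hk, hc⟩
    have hk0 : k = 0 := Th_unique hk (Or.inl ⟨rfl, rfl⟩)
    subst hk0
    simpa using hc
  · intro hc
    exact ⟨0, Or.inl ⟨rfl, rfl⟩, by simpa using hc⟩

/-- the outcome pattern has no smaller period among the multiples of 4 -/
theorem chi_period {s : ℕ} (hs : 4 * s < 4 * r + 8)
    (h : ∀ t, chi r t → chi r (t + 4 * s)) : s = 0 := by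
  by_contra hs0
  have hall : ∀ k, chi r (4 * s * k) := by
    intro k
    induction k with
    | zero => left; simp
    | succ k ih =>
      have := h _ ih
      rwa [show 4 * s * (k + 1) = 4 * s * k + 4 * s by ring]
  -- the least multiple of `4 s` which is at least `2 r + 4`
  have hex : ∃ k, 2 * r + 4 ≤ 4 * s * k := ⟨2 * r + 4, by nlinarith [Nat.pos_of_ne_zero hs0]⟩
  classical
  set k := Nat.find hex with hk
  have h1 : 2 * r + 4 ≤ 4 * s * k := Nat.find_spec hex
  have hk0 : k ≠ 0 := by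
    intro h0
    rw [h0] at h1
    omega
  obtain ⟨k', hk'⟩ := Nat.exists_eq_succ_of_ne_zero hk0
  have h2 : ¬ 2 * r + 4 ≤ 4 * s * k' := Nat.find_min hex (by omega)
  have h3 : 4 * s * k = 4 * s * k' + 4 * s := by rw [hk', Nat.succ_eq_add_one]; ring
  -- `4 s < 2 r + 4` because `chi` holds at `4 s`
  have h4 := hall 1
  rw [mul_one] at h4
  have h5 : 4 * s < 2 * r + 4 := by
    unfold chi at h4
    rw [Nat.mod_eq_of_lt hs] at h4
    omega
  have h6 := hall k
  have h7 : 4 * s * k < 4 * r + 8 := by omega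
  unfold chi at h6
  rw [Nat.mod_eq_of_lt h7] at h6
  have h8 : 4 * s * k % 2 = 0 := by
    rw [show 4 * s * k = 2 * (2 * s * k) by ring]
    omega
  omega

theorem outcomes_iff (m q : ℕ) :
    (∀ x : Pos r, (PP ((4 * (m + q), 0, 0, 0) + x) ↔ PP ((4 * m, 0, 0, 0) + x))) ↔
      (r + 2) ∣ q := by
  constructor
  · intro hall
    -- shift by `- 4 q`
    have hN : 0 < 4 * r + 8 := by omega
    have key : ∀ n, (chi r ((4 * r + 7) * (4 * (m + q) + n)) ↔ chi r ((4 * r + 7) * (4 * m + n))) := by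
      intro n
      have := hall ((n, 1, 0, 0) : Pos r)
      have e1 : (((4 * (m + q), 0, 0, 0) : Pos r) + (n, 1, 0, 0)) = (4 * (m + q) + n, 1, 0, 0) := by
        simp
      have e2 : (((4 * m, 0, 0, 0) : Pos r) + (n, 1, 0, 0)) = (4 * m + n, 1, 0, 0) := by
        simp
      rw [e1, e2, PP_row1, PP_row1] at this
      exact this
    have hshift : ∀ t, chi r t → chi r (t + 4 * (q % (r + 2))) := by
      intro t ht
      -- choose `n` with `(4 r + 7) (4 (m + q) + n) ≡ t`
      set n := (4 * r + 7) * (t + 4 * (m + q)) with hn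
      have k1 : chi r ((4 * r + 7) * (4 * (m + q) + n)) := by
        refine (chi_congr ?_).1 ht
        have : (4 * r + 7) * (4 * (m + q) + n) =
            t + (4 * r + 8) * (4 * (m + q) * (4 * r + 7) + t * (4 * r + 6)) := by
          rw [hn]; ring
        rw [this, Nat.add_mul_mod_self_left]
      have k2 := (key n).1 k1
      refine (chi_congr ?_).1 k2
      have e : (4 * r + 7) * (4 * m + n) + (4 * r + 8) * (4 * q) =
          (t + 4 * (q % (r + 2))) + (4 * r + 8) * (4 * m * (4 * r + 7) + 4 * q * (4 * r + 7) +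
            t * (4 * r + 6) + q / (r + 2)) := by
        have hq : q = (r + 2) * (q / (r + 2)) + q % (r + 2) := (Nat.div_add_mod q (r + 2)).symm
        set a := q / (r + 2)
        set b := q % (r + 2)
        rw [hn, hq]
        ring
      have e1 := congrArg (fun z => z % (4 * r + 8)) e
      simp only [Nat.add_mul_mod_self_left] at e1
      exact e1
    have hlt : q % (r + 2) < r + 2 := Nat.mod_lt _ (by omega)
    exact Nat.dvd_of_mod_eq_zero (chi_period (by omega) hshift)
  · rintro ⟨c, rfl⟩ ⟨n, i, l, Y⟩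
    show PPc (4 * (m + (r + 2) * c) + n) (0 + i) (0 + l) (0 + Y) ↔
      PPc (4 * m + n) (0 + i) (0 + l) (0 + Y)
    apply PPc_shift
    rw [show 4 * (m + (r + 2) * c) + n = 4 * m + n + (4 * r + 8) * c by ring,
      Nat.add_mul_mod_self_left]

end outcomes

theorem exists_nsmul_rep {r : ℕ} (D : RepSet r) (hD : Rep D.1 ((4, 0, 0, 0) : Pos r)) (m : ℕ) :
    ∃ G : RepSet r, Rep G.1 ((4 * m, 0, 0, 0) : Pos r) ∧
      m • cls (repSet_closed r) D = cls (repSet_closed r) G := by
  induction m with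
  | zero => exact ⟨⟨zero, (repSet_closed r).zero_mem⟩, rep_zero, by rw [zero_nsmul]; rfl⟩
  | succ m ih =>
    obtain ⟨G, hG, h⟩ := ih
    refine ⟨⟨add G D, (repSet_closed r).add_mem _ G.2 _ D.2⟩, ?_, ?_⟩
    · have := rep_add G.1 D.1 _ _ hG hD
      have e : (((4 * m, 0, 0, 0) : Pos r) + (4, 0, 0, 0)) = (4 * (m + 1), 0, 0, 0) := by
        simp [mul_add]
      rw [e] at this
      exact this
    · rw [succ_nsmul, h]
      rfl

/-- **Theorem.** For every integer `p ≥ 1` there is a set `A` of finite impartial games, closed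
under sums and under taking options, whose misère quotient contains an element of period `p`. -/
theorem result (p : ℕ) (hp : 1 ≤ p) :
    ∃ (A : Set Game) (hA : IsClosedSet A) (x : MisereQuotient A hA), HasPeriod x p := by
  rcases Nat.lt_or_ge 1 p with h1 | h1
  · obtain ⟨r, rfl⟩ : ∃ r, p = r + 2 := ⟨p - 2, by omega⟩
    obtain ⟨D, hD⟩ := exists_rep ((4, 0, 0, 0) : Pos r)
    refine ⟨RepSet r, repSet_closed r, cls (repSet_closed r) ⟨D, _, hD⟩, hp, 1, le_refl _, ?_⟩
    have key : ∀ m q : ℕ, (m + q) • cls (repSet_closed r) ⟨D, _, hD⟩ =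
        m • cls (repSet_closed r) ⟨D, _, hD⟩ ↔ (r + 2) ∣ q := by
      intro m q
      obtain ⟨G1, hG1, e1⟩ := exists_nsmul_rep ⟨D, _, hD⟩ hD (m + q)
      obtain ⟨G2, hG2, e2⟩ := exists_nsmul_rep ⟨D, _, hD⟩ hD m
      rw [e1, e2, ← outcomes_iff (r := r) m q, ← indist_iff hG1 hG2]
      exact ⟨fun h => Quotient.exact h, fun h => Quotient.sound h⟩
    refine ⟨(key 1 (r + 2)).2 (dvd_refl _), fun m' p' hm' hp' h => ⟨hm', ?_⟩⟩
    exact Nat.le_of_dvd (by omega) ((key m' p').1 h)
  · have hp1 : p = 1 := by omega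
    subst hp1
    refine ⟨RepSet 0, repSet_closed 0, 0, hp, 1, le_refl _, ?_, fun m' p' hm' hp' _ => ⟨hm', hp'⟩⟩
    rw [nsmul_zero, nsmul_zero]

end Pool.Agent.Results.MP_bc0e65_co.EveryPeriod
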